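import Mathlib

set_option autoImplicit false

namespace Pool.Agent.Results.MP_4f47f1_al

/-- A formation of finite groups: a class of finite groups closed under isomorphism, quotients
and finite subdirect products (`G/(N₁ ∩ N₂)` for `G/N₁` and `G/N₂` in the class). The empty class
is allowed. -/
structure Formation where
  /-- membership in the class -/
  mem : ∀ (G : Type) [Group G] [Finite G], Prop
  /-- closed under isomorphism -/
  iso : ∀ (G H : Type) [Group G] [Finite G] [Group H] [Finite H],
    Nonempty (G ≃* H) → mem G → mem H
  /-- closed under quotients -/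
  quot : ∀ (G : Type) [Group G] [Finite G] (N : Subgroup G) [N.Normal], mem G → mem (G ⧸ N)
  /-- closed under finite subdirect products -/
  sub : ∀ (G : Type) [Group G] [Finite G] (N₁ N₂ : Subgroup G) [N₁.Normal] [N₂.Normal],
    mem (G ⧸ N₁) → mem (G ⧸ N₂) → mem (G ⧸ (N₁ ⊓ N₂))

namespace Formation

theorem ext' {A B : Formation} (h : ∀ (G : Type) [Group G] [Finite G], A.mem G ↔ B.mem G) :
    A = B := by
  cases A with
  | mk a _ _ _ => cases B with
    | mk b _ _ _ =>
      have : a = b := by
        funext G i j
        exact propext (h G)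
      subst this
      rfl

/-- Formations are ordered by inclusion. -/
instance : PartialOrder Formation where
  le A B := ∀ (G : Type) [Group G] [Finite G], A.mem G → B.mem G
  le_refl A G _ _ h := h
  le_trans A B C h1 h2 G _ _ h := h2 G (h1 G h)
  le_antisymm A B h1 h2 := ext' fun G _ _ => ⟨h1 G, h2 G⟩

/-- Intersection of a family of formations. -/
instance : InfSet Formation where
  sInf S :=
    { mem := fun G _ _ => ∀ A ∈ S, A.mem G
      iso := fun G H _ _ _ _ e h A hA => A.iso G H e (h A hA)
      quot := fun G _ _ N _ h A hA => A.quot G N (h A hA)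
      sub := fun G _ _ N₁ N₂ _ _ h1 h2 A hA => A.sub G N₁ N₂ (h1 A hA) (h2 A hA) }

/-- The lattice of formations: infima are intersections, so `A ⊔ B` is the smallest formation
that contains `A` and `B`, and `⊥` is the empty formation. -/
instance : CompleteLattice Formation :=
  completeLatticeOfInf Formation fun _ =>
    ⟨fun A hA _ _ _ h => h A hA, fun _ hB G _ _ h A hA => hB hA G h⟩

/-- A formation is soluble if all its groups are soluble. -/
def IsSoluble (H : Formation) : Prop :=
  ∀ (G : Type) [Group G] [Finite G], H.mem G → Group.IsSolvable G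

/-- `H` has length `t`: there is a chain `∅ = H₀ ⊂ H₁ ⊂ ... ⊂ H_t = H` of formations in which
each `H_i` is a maximal subformation of `H_{i+1}` (that is, `H_{i+1}` covers `H_i`). -/
def HasLength (H : Formation) (t : ℕ) : Prop :=
  ∃ c : ℕ → Formation, c 0 = ⊥ ∧ c t = H ∧ ∀ i < t, c i ⋖ c (i + 1)

end Formation

end Pool.Agent.Results.MP_4f47f1_al
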