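import Mathlib
import Pool.Agent.Results.MP_4f47f1_al.Defs
import Pool.Agent.H13.Fm.Main

set_option autoImplicit false

namespace Pool.Agent.Results.MP_4f47f1_al.Distributive

open Pool.Agent.Results.MP_4f47f1_al

/-- The lattice of subformations of a soluble formation of length at most `4` is distributive. -/
theorem result (H : Formation) (hs : H.IsSoluble) (t : ℕ) (ht : t ≤ 4) (hl : H.HasLength t)
    (A B C : Formation) (hA : A ≤ H) (hB : B ≤ H) (hC : C ≤ H) :
    A ⊓ (B ⊔ C) = (A ⊓ B) ⊔ (A ⊓ C) :=
  H13.Fm.main H hs t ht hl A B C hA hB hC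

end Pool.Agent.Results.MP_4f47f1_al.Distributive
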